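import Pool.Agent.R957.BRW.Ex2

/-!
# An irreducible branching random walk for which `E_G` and `F_G \ E_G` are both infinite

The example lives on `ℕ × ℕ`: a particle at `(n,k)` has one child at `(n,k+1)`, one child at
`(n-1,k+1)` (if `n ≥ 1`) and, with probability `(1/4)^k/8`, two more children, at `(0,0)` and at
`(n+1,0)`.

`pop`, `law`, `gen` are those of the starting library `Pool.Agent.H632R3.BranchGen`;
`qExt`, `extSet`, `fixSet`, `Irr` are in `Pool.Agent.R957.BRW.Defs`.
-/

namespace Pool.Agent.Results.MP_46e535_pr.BothInfinite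

open Pool.Agent.R957.BRW

/-- There is an irreducible branching random walk on `ℕ × ℕ` for which `E_G` is infinite (in fact
countably infinite) and `F_G \ E_G` is infinite (in fact of the cardinality of the continuum). -/
theorem result : ∃ μ : ℕ × ℕ → PMF (ℕ × ℕ →₀ ℕ), Irr μ ∧
    (extSet μ).Infinite ∧ (fixSet μ \ extSet μ).Infinite ∧
    (extSet μ).Countable ∧
    Cardinal.mk (fixSet μ \ extSet μ : Set (ℕ × ℕ → ℝ)) = Cardinal.continuum := by
  have h := card_diff fixE_card extE_countable
  refine ⟨muE, irr_muE, extE_infinite, ?_, extE_countable, h⟩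
  intro hfin
  have h2 := Cardinal.lt_aleph0_iff_set_finite.mpr hfin
  rw [h] at h2
  exact absurd h2 (not_lt.mpr Cardinal.aleph0_le_continuum)

end Pool.Agent.Results.MP_46e535_pr.BothInfinite
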